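import Mathlib
import Pool.Agent.H25.SI.Hal

/-!
# Transfer of integrality to a central cover

`f : K →* G` is surjective with central kernel.  `cov f Λ` is `|ker f| Λ` on the functions inflated from `G`,
and `0` on the other functions.

PROOF of `integral_cov`.  `χ := indChar H lam` for `lam : H →* ℂˣ`.  For `k ∈ f.ker` (central, `H` normal):
`χ k = 0` if `k ∉ H`, and `χ k = (Nat.card H)⁻¹ * Nat.card K * lam ⟨k, _⟩` if `k ∈ H` (`t⁻¹ * k * t = k`);
`χ 1 = (Nat.card H)⁻¹ * Nat.card K ≠ 0`.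
(1) If `¬ f.ker ≤ H`: `χ` is not of the form `χ' ∘ f` (it would give `χ k = χ 1`), so `cov f Λ χ = 0`; take
`b = 0`.
(2) If `f.ker ≤ H`: get `b` from `hΛ`, put
`b' := ∑ h : H, single h (b.coeff ⟨f h, _⟩)`, so `ev lam b' = ∑ h : H, b.coeff ⟨f h, _⟩ * lam h`.
 (2a) `lam` not trivial on `f.ker`: `χ` is not inflated, so `cov f Λ χ = 0`; and with `lam ⟨k, _⟩ ≠ 1`, the
 substitution `h ↦ k * h` gives `ev lam b' = lam k * ev lam b'`, so `ev lam b' = 0`.
 (2b) `lam` trivial on `f.ker`: there is `lam' : H.map f →* ℂˣ` with `lam' ⟨f h, _⟩ = lam h` (e.g. by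
 `(f.subgroupMap H)` surjective, kernel in the kernel of `lam`; `MonoidHom.liftOfSurjective` /
 `QuotientGroup.lift`), and
 `χ = (indChar (H.map f) lam') ∘ f`: in `indChar`, `t⁻¹ * k * t ∈ H ↔ f (t⁻¹ * k * t) ∈ H.map f` (as
 `f.ker ≤ H`: `Subgroup.comap_map_eq_self`), group the sum over `t : K` by `f t` (each fibre has
 `Nat.card f.ker` elements: `fib_sum` below), `Nat.card H = Nat.card f.ker * Nat.card (H.map f)`.
 So `cov f Λ χ = card f.ker * Λ (indChar (H.map f) lam') = card f.ker * ev lam' b = ev lam b'` (`fib_sum` again).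
`fib_sum`: `∑ h : H, F (f h) = card f.ker * ∑ g : H.map f, F g`: `Finset.sum_fiberwise`-type argument, or
`Fintype.sum_equiv` with `H ≃ (H.map f) × f.ker` (choose a preimage of every `g`).
-/

set_option autoImplicit false
set_option linter.unusedSectionVars false

namespace H29SN

open H25SI

section
variable {G : Type} [Group G] {K : Type} [Group K] (f : K →* G)

open Classical in
/-- the functional on the functions on the cover -/
noncomputable def cov (Λ : (G → ℂ) → ℂ) (χ : K → ℂ) : ℂ :=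
  if h : ∃ χ' : G → ℂ, χ = fun k => χ' (f k) then (Nat.card f.ker : ℂ) * Λ h.choose else 0

theorem cov_infl (hf : Function.Surjective f) (Λ : (G → ℂ) → ℂ) (χ : G → ℂ) :
    cov f Λ (fun k => χ (f k)) = (Nat.card f.ker : ℂ) * Λ χ := by
  have h : ∃ χ' : G → ℂ, (fun k => χ (f k)) = fun k => χ' (f k) := ⟨χ, rfl⟩
  rw [cov, dif_pos h]
  congr 2
  funext g
  obtain ⟨k, rfl⟩ := hf g
  exact (congrFun h.choose_spec k).symm

theorem cov_zero (Λ : (G → ℂ) → ℂ) (χ : K → ℂ) (h : ¬ ∃ χ' : G → ℂ, χ = fun k => χ' (f k)) :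
    cov f Λ χ = 0 := by
  rw [cov, dif_neg h]

private theorem fib_gen {A B : Type} [Group A] [Group B] [Fintype A] [Fintype B] (π : A →* B)
    (hπ : Function.Surjective π) (F : B → ℂ) :
    ∑ a : A, F (π a) = (Nat.card π.ker : ℂ) * ∑ b : B, F b := by
  classical
  rw [← Finset.sum_fiberwise' Finset.univ (fun a => π a) F, Finset.mul_sum]
  refine Finset.sum_congr rfl fun b _ => ?_
  rw [Finset.sum_const, nsmul_eq_mul]
  congr 2
  obtain ⟨a, rfl⟩ := hπ b
  have h1 := MonoidHom.card_fiber_eq_of_mem_range π (x := π a) (y := 1) ⟨a, rfl⟩ ⟨1, map_one π⟩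
  rw [h1, ← Fintype.card_subtype, ← Nat.card_eq_fintype_card]
  rfl

private theorem ker_card (H : Subgroup K) (hH : f.ker ≤ H) :
    Nat.card (f.subgroupMap H).ker = Nat.card f.ker := by
  refine Nat.card_congr ⟨fun x => ⟨(x : H), ?_⟩, fun x => ⟨⟨x, hH x.2⟩, ?_⟩, fun x => ?_, fun x => ?_⟩
  · have h1 : f.subgroupMap H x = 1 := x.2
    exact congrArg Subtype.val h1
  · apply Subtype.ext
    exact x.2
  · rfl
  · rfl

theorem fib_sum [Fintype K] [Fintype G] (H : Subgroup K) [Fintype H] (hH : f.ker ≤ H)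
    [Fintype (H.map f)] (F : G → ℂ) :
    ∑ h : H, F (f h) = (Nat.card f.ker : ℂ) * ∑ g : H.map f, F g := by
  have h1 := fib_gen (f.subgroupMap H) (f.subgroupMap_surjective H) (fun g => F g)
  rw [ker_card f H hH] at h1
  exact h1

private theorem ind_ker [Fintype K] (hc : ∀ k ∈ f.ker, ∀ x : K, k * x = x * k) (H : Subgroup K)
    (lam : H →* ℂˣ) {k : K} (hk : k ∈ f.ker) :
    (k ∉ H → indChar H lam k = 0) ∧ (∀ h : k ∈ H, indChar H lam k =
      (Nat.card H : ℂ)⁻¹ * ((Nat.card K : ℂ) * ((lam ⟨k, h⟩ : ℂˣ) : ℂ))) := by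
  classical
  have h1 : ∀ t : K, t⁻¹ * k * t = k := by
    intro t
    rw [mul_assoc, hc k hk t, inv_mul_cancel_left]
  constructor
  · intro h
    rw [indChar]
    rw [Finset.sum_eq_zero, mul_zero]
    intro t _
    rw [dif_neg]
    rw [h1 t]
    exact h
  · intro h
    rw [indChar]
    congr 1
    have h2 : ∀ t : K, (if h : t⁻¹ * k * t ∈ H then ((lam ⟨t⁻¹ * k * t, h⟩ : ℂˣ) : ℂ) else 0)
        = ((lam ⟨k, h⟩ : ℂˣ) : ℂ) := by
      intro t
      rw [dif_pos (by rw [h1 t]; exact h)]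
      congr 3
      exact h1 t
    rw [Finset.sum_congr rfl fun t _ => h2 t, Finset.sum_const, nsmul_eq_mul, Finset.card_univ,
      Nat.card_eq_fintype_card]

private theorem ind_infl [Fintype K] [Fintype G] (hf : Function.Surjective f) (H : Subgroup K)
    (hH : f.ker ≤ H) (lam : H →* ℂˣ) (lam' : H.map f →* ℂˣ)
    (hl : ∀ h : H, lam' (f.subgroupMap H h) = lam h) :
    indChar H lam = fun k => indChar (H.map f) lam' (f k) := by
  classical
  have : Fintype H := Fintype.ofFinite _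
  have : Fintype (H.map f) := Fintype.ofFinite _
  funext k
  rw [indChar, indChar]
  let F : G → ℂ := fun s =>
    if h : s⁻¹ * f k * s ∈ H.map f then ((lam' ⟨s⁻¹ * f k * s, h⟩ : ℂˣ) : ℂ) else 0
  have h2 : ∀ t : K, (if h : t⁻¹ * k * t ∈ H then ((lam ⟨t⁻¹ * k * t, h⟩ : ℂˣ) : ℂ) else 0)
      = F (f t) := by
    intro t
    have e : (f t)⁻¹ * f k * f t = f (t⁻¹ * k * t) := by
      rw [map_mul, map_mul, map_inv]
    by_cases h : t⁻¹ * k * t ∈ H
    · have h' : (f t)⁻¹ * f k * f t ∈ H.map f := by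
        rw [e]
        exact Subgroup.mem_map_of_mem f h
      have h3 := hl ⟨t⁻¹ * k * t, h⟩
      rw [dif_pos h]
      show _ = (if h : (f t)⁻¹ * f k * f t ∈ H.map f then
        ((lam' ⟨(f t)⁻¹ * f k * f t, h⟩ : ℂˣ) : ℂ) else 0)
      rw [dif_pos h', ← h3]
      congr 3
      exact Subtype.ext e.symm
    · have h' : (f t)⁻¹ * f k * f t ∉ H.map f := by
        rw [e]
        rintro ⟨y, hy, hy2⟩
        apply h
        have h4 : y⁻¹ * (t⁻¹ * k * t) ∈ f.ker := by
          rw [MonoidHom.mem_ker, map_mul, map_inv, hy2, inv_mul_cancel]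
        have h5 := H.mul_mem hy (hH h4)
        rwa [mul_inv_cancel_left] at h5
      rw [dif_neg h]
      show _ = (if h : (f t)⁻¹ * f k * f t ∈ H.map f then
        ((lam' ⟨(f t)⁻¹ * f k * f t, h⟩ : ℂˣ) : ℂ) else 0)
      rw [dif_neg h']
  rw [Finset.sum_congr rfl fun t _ => h2 t, fib_gen f hf F]
  have h6 := fib_sum f H hH (fun _ => 1)
  simp only [Finset.sum_const, Finset.card_univ, nsmul_eq_mul, mul_one] at h6
  rw [← Nat.card_eq_fintype_card, ← Nat.card_eq_fintype_card] at h6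
  rw [h6, mul_inv, mul_assoc]
  have h7 : (Nat.card f.ker : ℂ) ≠ 0 := by
    have : Nat.card f.ker ≠ 0 := Nat.card_pos.ne'
    exact_mod_cast this
  have h8 : (Nat.card (H.map f) : ℂ) ≠ 0 := by
    have : Nat.card (H.map f) ≠ 0 := Nat.card_pos.ne'
    exact_mod_cast this
  field_simp
  rfl

theorem integral_cov [Fintype K] [Fintype G] (hf : Function.Surjective f)
    (hc : ∀ k ∈ f.ker, ∀ x : K, k * x = x * k) (Λ : (G → ℂ) → ℂ) (H : Subgroup K) [H.Normal]
    (hΛ : f.ker ≤ H → IntegralAt Λ (H.map f)) : IntegralAt (cov f Λ) H := by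
  classical
  have : Fintype H := Fintype.ofFinite _
  have : Fintype (H.map f) := Fintype.ofFinite _
  have hH0 : (Nat.card H : ℂ) ≠ 0 := by
    have : Nat.card H ≠ 0 := Nat.card_pos.ne'
    exact_mod_cast this
  have hK0 : (Nat.card K : ℂ) ≠ 0 := by
    have : Nat.card K ≠ 0 := Nat.card_pos.ne'
    exact_mod_cast this
  have hone : ∀ lam : H →* ℂˣ, indChar H lam 1 = (Nat.card H : ℂ)⁻¹ * (Nat.card K : ℂ) := by
    intro lam
    rw [(ind_ker f hc H lam (k := 1) (one_mem _)).2 (one_mem _)]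
    have : (⟨1, one_mem H⟩ : H) = 1 := rfl
    rw [this, map_one]
    simp
  have hinf : ∀ lam : H →* ℂˣ, (∃ χ' : G → ℂ, indChar H lam = fun k => χ' (f k)) →
      ∀ k ∈ f.ker, indChar H lam k = indChar H lam 1 := by
    rintro lam ⟨χ', hχ⟩ k hk
    rw [hχ]
    simp only
    rw [MonoidHom.mem_ker.1 hk, map_one]
  by_cases hker : f.ker ≤ H
  · obtain ⟨b, hb⟩ := hΛ hker
    refine ⟨∑ h : H, MonoidAlgebra.single h (b.coeff (f.subgroupMap H h)), fun lam => ?_⟩
    have hev : ev lam (∑ h : H, MonoidAlgebra.single h (b.coeff (f.subgroupMap H h))) =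
        ∑ h : H, ((b.coeff (f.subgroupMap H h) : ℤ) : ℂ) * ((lam h : ℂˣ) : ℂ) := by
      rw [map_sum]
      exact Finset.sum_congr rfl fun h _ => ev_single _ _ _
    rw [hev]
    by_cases htr : ∀ k, ∀ hk : k ∈ f.ker, lam ⟨k, hker hk⟩ = 1
    · have hk2 : (f.subgroupMap H).ker ≤ lam.ker := by
        intro x hx
        have h1 : f.subgroupMap H x = 1 := hx
        have h2 : f x = 1 := congrArg Subtype.val h1
        exact htr x h2
      let lam' : H.map f →* ℂˣ :=
        (f.subgroupMap H).liftOfSurjective (f.subgroupMap_surjective H) ⟨lam, hk2⟩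
      have hl : ∀ h : H, lam' (f.subgroupMap H h) = lam h := fun h =>
        MonoidHom.liftOfRightInverse_comp_apply (f.subgroupMap H) _ _ ⟨lam, hk2⟩ h
      rw [ind_infl f hf H hker lam lam' hl, cov_infl f hf, hb lam', ev_sum]
      have h3 := fib_gen (f.subgroupMap H) (f.subgroupMap_surjective H)
        (fun g => ((b.coeff g : ℤ) : ℂ) * ((lam' g : ℂˣ) : ℂ))
      rw [ker_card f H hker] at h3
      rw [← h3]
      refine Finset.sum_congr rfl fun h _ => ?_
      rw [hl h]
    · push Not at htr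
      obtain ⟨k, hk, hne⟩ := htr
      rw [cov_zero]
      · symm
        set S : ℂ := ∑ h : H, ((b.coeff (f.subgroupMap H h) : ℤ) : ℂ) * ((lam h : ℂˣ) : ℂ) with hS
        have h1 : S = ((lam ⟨k, hker hk⟩ : ℂˣ) : ℂ) * S := by
          conv_lhs => rw [hS]
          rw [← Equiv.sum_comp (Equiv.mulLeft (⟨k, hker hk⟩ : H)), hS, Finset.mul_sum]
          refine Finset.sum_congr rfl fun h _ => ?_
          have h4 : f.subgroupMap H (⟨k, hker hk⟩ * h) = f.subgroupMap H h := by
            rw [map_mul]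
            have : f.subgroupMap H ⟨k, hker hk⟩ = 1 := Subtype.ext hk
            rw [this, one_mul]
          rw [Equiv.coe_mulLeft, h4, map_mul]
          push_cast
          ring
        have h2 : (((lam ⟨k, hker hk⟩ : ℂˣ) : ℂ) - 1) * S = 0 := by
          rw [sub_mul, one_mul, ← h1, sub_self]
        rcases mul_eq_zero.1 h2 with h3 | h3
        · exfalso
          apply hne
          apply Units.ext
          rw [Units.val_one]
          exact sub_eq_zero.1 h3
        · exact h3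
      · intro hex
        have h1 := hinf lam hex k hk
        rw [hone lam, (ind_ker f hc H lam hk).2 (hker hk)] at h1
        apply hne
        apply Units.ext
        rw [Units.val_one]
        have h2 := mul_left_cancel₀ (inv_ne_zero hH0) h1
        have h3 : (Nat.card K : ℂ) * ((lam ⟨k, hker hk⟩ : ℂˣ) : ℂ) = (Nat.card K : ℂ) * 1 := by
          rw [mul_one]; exact h2
        exact mul_left_cancel₀ hK0 h3
  · rw [SetLike.not_le_iff_exists] at hker
    obtain ⟨k, hk, hkH⟩ := hker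
    refine ⟨0, fun lam => ?_⟩
    rw [map_zero, cov_zero]
    intro hex
    have h1 := hinf lam hex k hk
    rw [hone lam, (ind_ker f hc H lam hk).1 hkH] at h1
    exact (mul_ne_zero (inv_ne_zero hH0) hK0) h1.symm

end

end H29SN
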