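import Mathlib

/-!
# Groups `G = A C`, `A` abelian normal, `C` abelian, with abelian Sylow `p`-subgroups

Let `m` be the part of `Nat.card G` prime to `p`.  `A' := {a ∈ A | a ^ m ∈ commutator G}`,
`C' := C ⊔ center G`.  An element of `A' ⊓ C'` is central; if its order is `p`, it is in the commutator
subgroup, and the transfer to a Sylow `p`-subgroup shows that it is trivial.  `A' ⊔ C' = ⊤` by the norm
`∏ q : G ⧸ P, q b q⁻¹` for the elements `b ∈ A` of `p`-power order.
-/

set_option autoImplicit false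

open scoped commutatorElement

namespace H29SN

theorem comm_le {G : Type} [Group G] (A C : Subgroup G) [A.Normal]
    (hC : ∀ a ∈ C, ∀ b ∈ C, a * b = b * a) (hAC : A ⊔ C = ⊤) : commutator G ≤ A := by
  have hdec : ∀ g : G, ∃ c ∈ C, (QuotientGroup.mk g : G ⧸ A) = QuotientGroup.mk c := by
    intro g
    have hg : g ∈ A ⊔ C := hAC ▸ Subgroup.mem_top g
    rw [Subgroup.mem_sup_of_normal_left] at hg
    obtain ⟨a, ha, c, hc, rfl⟩ := hg
    refine ⟨c, hc, ?_⟩
    rw [QuotientGroup.mk_mul, (QuotientGroup.eq_one_iff a).2 ha, one_mul]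
  rw [commutator_def, Subgroup.commutator_le]
  intro g _ h _
  obtain ⟨c, hc, h1⟩ := hdec g
  obtain ⟨d, hd, h2⟩ := hdec h
  rw [← QuotientGroup.eq_one_iff, commutatorElement_def]
  simp only [QuotientGroup.mk_mul, QuotientGroup.mk_inv, h1, h2]
  rw [← QuotientGroup.mk_mul, hC c hc d hd, QuotientGroup.mk_mul]
  group

/-- a central element of `p`-power order in the commutator subgroup is trivial -/
theorem central_trivial {G : Type} [Group G] [Finite G] (p : ℕ) [Fact p.Prime]
    (hS : ∀ P : Sylow p G, ∀ x ∈ P, ∀ y ∈ P, x * y = y * x) {x : G} (hx : ∀ g, g * x = x * g)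
    (hxc : x ∈ commutator G) {k : ℕ} (hk : x ^ p ^ k = 1) : x = 1 := by
  obtain ⟨P⟩ : Nonempty (Sylow p G) := inferInstance
  let _ : CommGroup P :=
    { (inferInstance : Group P) with mul_comm := fun a b => Subtype.ext (hS P a a.2 b b.2) }
  let V : G →* P := MonoidHom.transfer (MonoidHom.id P)
  have hV : V x = MonoidHom.id P ⟨x ^ (P : Subgroup G).index, _⟩ :=
    MonoidHom.transfer_eq_pow (MonoidHom.id P) x (fun k g₀ _ => by
      have : ∀ k : ℕ, g₀⁻¹ * x ^ k = x ^ k * g₀⁻¹ := by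
        intro k
        exact (show Commute g₀⁻¹ x from hx g₀⁻¹).pow_right k
      rw [this k, inv_mul_cancel_right])
  have h1 : V x = 1 := by
    have := Abelianization.commutator_subset_ker V hxc
    exact this
  have h2 : x ^ (P : Subgroup G).index = 1 := by
    have h3 : MonoidHom.id P ⟨x ^ (P : Subgroup G).index, _⟩ = 1 := hV.symm.trans h1
    have h4 := congrArg (Subtype.val) h3
    exact h4
  have hcop : Nat.Coprime (P : Subgroup G).index (p ^ k) :=
    Nat.Coprime.pow_right _ ((Nat.Prime.coprime_iff_not_dvd Fact.out).2 P.not_dvd_index).symm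
  have h5 : orderOf x ∣ 1 := by
    rw [← hcop.gcd_eq_one]
    exact Nat.dvd_gcd (orderOf_dvd_of_pow_eq_one h2) (orderOf_dvd_of_pow_eq_one hk)
  exact orderOf_eq_one_iff.1 (Nat.dvd_one.1 h5)

/-- the norm of an element of `A` which is in the commutative subgroup `P` -/
theorem norm_mem {G : Type} [Group G] [Finite G] (A P : Subgroup G) [hAn : A.Normal]
    (hA : ∀ a ∈ A, ∀ b ∈ A, a * b = b * a) (hP : ∀ a ∈ P, ∀ b ∈ P, a * b = b * a)
    {b : G} (hb : b ∈ A) (hbP : b ∈ P) : b ^ P.index ∈ commutator G ⊔ Subgroup.center G := by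
  classical
  have := Fintype.ofFinite (G ⧸ P)
  let iA : CommGroup A :=
    { (inferInstance : Group A) with mul_comm := fun a b => Subtype.ext (hA a a.2 b b.2) }
  let f : G ⧸ P → A := fun q => ⟨q.out * b * q.out⁻¹, hAn.conj_mem b hb q.out⟩
  let N : A := ∏ q : G ⧸ P, f q
  have hf : ∀ (g : G) (q : G ⧸ P), ((f (g • q) : A) : G) = g * (f q : A) * g⁻¹ := by
    intro g q
    have h1 : (QuotientGroup.mk (g * q.out) : G ⧸ P) = QuotientGroup.mk ((g • q).out) := by
      rw [QuotientGroup.out_eq']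
      conv_rhs => rw [← QuotientGroup.out_eq' q]
      rfl
    rw [QuotientGroup.eq] at h1
    have h2 := hP _ h1 b hbP
    have h3 : (g • q).out = g * q.out * ((g * q.out)⁻¹ * (g • q).out) := by group
    change (g • q).out * b * (g • q).out⁻¹ = g * (q.out * b * q.out⁻¹) * g⁻¹
    rw [h3, mul_inv_rev (g * q.out)]
    calc g * q.out * ((g * q.out)⁻¹ * (g • q).out) * b * (((g * q.out)⁻¹ * (g • q).out)⁻¹ * (g * q.out)⁻¹)
        = g * q.out * (((g * q.out)⁻¹ * (g • q).out) * b) * (((g * q.out)⁻¹ * (g • q).out)⁻¹ * (g * q.out)⁻¹) := by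
          simp only [mul_assoc]
      _ = g * (q.out * b * q.out⁻¹) * g⁻¹ := by
          rw [h2]; group
  have hN : (N : G) ∈ Subgroup.center G := by
    rw [Subgroup.mem_center_iff]
    intro g
    have h1 : (MulAut.conjNormal g : MulAut A) N = N := by
      change (MulAut.conjNormal g : MulAut A) (∏ q : G ⧸ P, f q) = ∏ q : G ⧸ P, f q
      rw [map_prod]
      have h2 : ∀ q, (MulAut.conjNormal g : MulAut A) (f q) = f (g • q) := by
        intro q
        apply Subtype.ext
        rw [MulAut.conjNormal_apply, hf]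
      simp_rw [h2]
      exact Fintype.prod_equiv (MulAction.toPerm g) _ _ fun q => rfl
    have h3 := congrArg (Subtype.val) h1
    rw [MulAut.conjNormal_apply] at h3
    calc g * (N : G) = g * N * g⁻¹ * g := by group
      _ = N * g := by rw [h3]
  let M : A := ∏ q : G ⧸ P, ((⟨b, hb⟩ : A) * (f q)⁻¹)
  have hM : (M : G) ∈ commutator G := by
    have : M ∈ (commutator G).subgroupOf A := by
      apply Subgroup.prod_mem
      intro q _
      rw [Subgroup.mem_subgroupOf]
      have h1 : (((⟨b, hb⟩ : A) * (f q)⁻¹ : A) : G) = ⁅b, q.out⁆ := by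
        change b * (q.out * b * q.out⁻¹)⁻¹ = _
        rw [commutatorElement_def]; group
      rw [h1]
      exact Subgroup.commutator_mem_commutator (Subgroup.mem_top _) (Subgroup.mem_top _)
    exact Subgroup.mem_subgroupOf.1 this
  have hMN : M * N = (⟨b, hb⟩ : A) ^ P.index := by
    change (∏ q : G ⧸ P, ((⟨b, hb⟩ : A) * (f q)⁻¹)) * (∏ q : G ⧸ P, f q) = _
    rw [← Finset.prod_mul_distrib]
    simp only [inv_mul_cancel_right]
    rw [Finset.prod_const, Finset.card_univ, Subgroup.index_eq_card, Nat.card_eq_fintype_card]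
  have h4 := congrArg (Subtype.val) hMN
  have h5 : b ^ P.index = (M : G) * (N : G) := by
    have h6 : (M : G) * (N : G) = b ^ P.index := h4
    exact h6.symm
  rw [h5]
  exact Subgroup.mul_mem _ (Subgroup.mem_sup_left hM) (Subgroup.mem_sup_right hN)

theorem exists_AC {G : Type} [Group G] [Finite G] (A C : Subgroup G) [A.Normal]
    (hA : ∀ a ∈ A, ∀ b ∈ A, a * b = b * a) (hC : ∀ a ∈ C, ∀ b ∈ C, a * b = b * a)
    (hAC : A ⊔ C = ⊤) (p : ℕ) [Fact p.Prime]
    (hS : ∀ P : Sylow p G, ∀ x ∈ P, ∀ y ∈ P, x * y = y * x) :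
    ∃ A' C' : Subgroup G, A'.Normal ∧ commutator G ≤ A' ∧ (∀ a ∈ A', ∀ b ∈ A', a * b = b * a) ∧
      (∀ a ∈ C', ∀ b ∈ C', a * b = b * a) ∧ A' ⊔ C' = ⊤ ∧ ¬ p ∣ Nat.card ↥(A' ⊓ C') := by
  classical
  have hp : p.Prime := Fact.out
  have hcA := comm_le A C hC hAC
  have hcard : Nat.card G ≠ 0 := Nat.card_pos.ne'
  set k := (Nat.card G).factorization p with hk
  set m := Nat.card G / p ^ k with hm
  have hkm : p ^ k * m = Nat.card G := Nat.ordProj_mul_ordCompl_eq_self _ _
  have hcop : Nat.Coprime (p ^ k) m := (Nat.coprime_ordCompl hp hcard).pow_left k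
  let A' : Subgroup G :=
    { carrier := {a | a ∈ A ∧ a ^ m ∈ commutator G}
      mul_mem' := by
        rintro a b ⟨ha, ha'⟩ ⟨hb, hb'⟩
        refine ⟨A.mul_mem ha hb, ?_⟩
        rw [(show Commute a b from hA a ha b hb).mul_pow]
        exact Subgroup.mul_mem _ ha' hb'
      one_mem' := ⟨A.one_mem, by rw [one_pow]; exact Subgroup.one_mem _⟩
      inv_mem' := by
        rintro a ⟨ha, ha'⟩
        exact ⟨A.inv_mem ha, by rw [inv_pow]; exact Subgroup.inv_mem _ ha'⟩ }
  have hA' : ∀ a, a ∈ A' ↔ a ∈ A ∧ a ^ m ∈ commutator G := fun a => Iff.rfl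
  have hcomC : ∀ a ∈ C ⊔ Subgroup.center G, ∀ b ∈ C, a * b = b * a := by
    intro a ha b hb
    rw [Subgroup.mem_sup_of_normal_right] at ha
    obtain ⟨c, hc, z, hz, rfl⟩ := ha
    rw [Subgroup.mem_center_iff] at hz
    rw [mul_assoc, ← hz b, ← mul_assoc, hC c hc b hb, mul_assoc]
  refine ⟨A', C ⊔ Subgroup.center G, ⟨fun a ha g => ?_⟩, fun a ha => ?_, fun a ha b hb => ?_,
    fun a ha b hb => ?_, ?_, ?_⟩
  · rw [hA'] at ha ⊢
    refine ⟨Subgroup.Normal.conj_mem inferInstance a ha.1 g, ?_⟩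
    rw [conj_pow]
    exact Subgroup.Normal.conj_mem inferInstance _ ha.2 g
  · exact ⟨hcA ha, Subgroup.pow_mem _ ha m⟩
  · exact hA a ha.1 b hb.1
  · rw [Subgroup.mem_sup_of_normal_right] at hb
    obtain ⟨c, hc, z, hz, rfl⟩ := hb
    rw [Subgroup.mem_center_iff] at hz
    rw [← mul_assoc, hcomC a ha c hc, mul_assoc, hz a, ← mul_assoc]
  · rw [eq_top_iff, ← hAC, sup_le_iff]
    refine ⟨fun a ha => ?_, le_sup_of_le_right le_sup_left⟩
    -- decomposition of `a`
    have hbez : (1 : ℤ) = (p ^ k : ℕ) * (Nat.gcdA (p ^ k) m) + (m : ℤ) * Nat.gcdB (p ^ k) m := by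
      have := Nat.gcd_eq_gcd_ab (p ^ k) m
      rw [hcop.gcd_eq_one] at this
      exact_mod_cast this
    set v := Nat.gcdA (p ^ k) m
    set u := Nat.gcdB (p ^ k) m
    have hcardG : ∀ x : G, x ^ (p ^ k * m) = 1 := fun x => by
      rw [hkm]; exact pow_card_eq_one'
    have ha1 : a = (a ^ ((m : ℤ) * u)) * (a ^ (((p ^ k : ℕ) : ℤ) * v)) := by
      rw [← zpow_add, add_comm, ← hbez, zpow_one]
    have hq : a ^ (((p ^ k : ℕ) : ℤ) * v) ∈ A' := by
      refine ⟨A.zpow_mem ha _, ?_⟩
      have : (a ^ (((p ^ k : ℕ) : ℤ) * v)) ^ m = 1 := by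
        rw [← zpow_natCast, ← zpow_mul]
        have e : ((p ^ k : ℕ) : ℤ) * v * m = ((p ^ k * m : ℕ) : ℤ) * v := by push_cast; ring
        rw [e, zpow_mul, zpow_natCast, hcardG, one_zpow]
      rw [this]
      exact Subgroup.one_mem _
    -- the `p`-part
    set b := a ^ ((m : ℤ) * u) with hb
    have hbA : b ∈ A := A.zpow_mem ha _
    have hbp : b ^ p ^ k = 1 := by
      rw [hb, ← zpow_natCast, ← zpow_mul]
      have e : (m : ℤ) * u * ((p ^ k : ℕ) : ℤ) = ((p ^ k * m : ℕ) : ℤ) * u := by push_cast; ring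
      rw [e, zpow_mul, zpow_natCast, hcardG, one_zpow]
    let Ap : Subgroup G :=
      { carrier := {a | a ∈ A ∧ a ^ p ^ k = 1}
        mul_mem' := by
          rintro a b ⟨ha, ha'⟩ ⟨hb, hb'⟩
          refine ⟨A.mul_mem ha hb, ?_⟩
          rw [(show Commute a b from hA a ha b hb).mul_pow, ha', hb', one_mul]
        one_mem' := ⟨A.one_mem, one_pow _⟩
        inv_mem' := by
          rintro a ⟨ha, ha'⟩
          exact ⟨A.inv_mem ha, by rw [inv_pow, ha', inv_one]⟩ }
    have hAp : IsPGroup p Ap := fun x => ⟨k, Subtype.ext x.2.2⟩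
    obtain ⟨P, hP⟩ := hAp.exists_le_sylow
    have h1 := norm_mem A (P : Subgroup G) hA (hS P) hbA (hP ⟨hbA, hbp⟩)
    have h2 : Nat.Coprime (P : Subgroup G).index (orderOf b) := by
      apply Nat.Coprime.coprime_dvd_right (orderOf_dvd_of_pow_eq_one hbp)
      exact Nat.Coprime.pow_right _ ((Nat.Prime.coprime_iff_not_dvd Fact.out).2 P.not_dvd_index).symm
    obtain ⟨l, hl⟩ := exists_pow_eq_self_of_coprime h2
    have h3 : b ∈ A' ⊔ (C ⊔ Subgroup.center G) := by
      rw [← hl]
      apply Subgroup.pow_mem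
      exact (sup_le_sup (fun x hx => ⟨hcA hx, Subgroup.pow_mem _ hx m⟩) le_sup_right :
        commutator G ⊔ Subgroup.center G ≤ A' ⊔ (C ⊔ Subgroup.center G)) h1
    rw [ha1]
    exact Subgroup.mul_mem _ h3 (Subgroup.mem_sup_left hq)
  · intro hdvd
    obtain ⟨y, hy⟩ := exists_prime_orderOf_dvd_card' p hdvd
    obtain ⟨x, hx⟩ := y
    have hxp : x ^ p = 1 := by
      have := pow_orderOf_eq_one (⟨x, hx⟩ : ↥(A' ⊓ (C ⊔ Subgroup.center G)))
      rw [hy] at this
      exact congrArg Subtype.val this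
    have hx1 : x ≠ 1 := by
      rintro rfl
      have : orderOf (1 : ↥(A' ⊓ (C ⊔ Subgroup.center G))) = p := hy
      rw [orderOf_one] at this
      exact hp.one_lt.ne this
    obtain ⟨⟨hxA, hxm⟩, hxC⟩ := hx
    have hcen : ∀ g, g * x = x * g := by
      intro g
      have hg : g ∈ A ⊔ C := hAC ▸ Subgroup.mem_top g
      rw [Subgroup.mem_sup_of_normal_left] at hg
      obtain ⟨a, ha, c, hc, rfl⟩ := hg
      rw [mul_assoc, ← hcomC x hxC c hc, ← mul_assoc, hA a ha x hxA, mul_assoc]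
    have hk1 : 0 < k := by
      by_contra h0
      have : k = 0 := by omega
      rw [this, pow_zero, one_mul] at hkm
      have h1 : x ^ m = 1 := by rw [hkm]; exact pow_card_eq_one'
      have h2 : orderOf x = p := orderOf_eq_prime hxp hx1
      have h3 : p ∣ Nat.card G := h2 ▸ orderOf_dvd_natCard x
      have h4 := (Nat.Prime.factorization_pos_of_dvd hp hcard h3)
      omega
    have hcop' : Nat.Coprime m (orderOf x) := by
      rw [orderOf_eq_prime hxp hx1]
      exact (Nat.Coprime.coprime_dvd_left (dvd_pow_self p hk1.ne') hcop).symm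
    obtain ⟨l, hl⟩ := exists_pow_eq_self_of_coprime hcop'
    have hxc : x ∈ commutator G := by
      rw [← hl]
      exact Subgroup.pow_mem _ hxm l
    exact hx1 (central_trivial p hS hcen hxc (k := 1) (by rw [pow_one]; exact hxp))

end H29SN
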