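import Mathlib
import Pool.Agent.H25.SI.Hal

/-!
# Inflation of irreducible representations and the integrality ring

`f : K →* G` is surjective.

PROOF of `ext_infl`: both sides are additive in `x` (`MonoidAlgebra.induction_linear` or
`MonoidAlgebra.induction_on`), and equal on `single k n` (`ext_single`, `MonoidAlgebra.mapDomain_single`).
PROOF of `ring_infl`: `Subring.closure_induction`.  Generators: (a) `F = centralValue z`, `z` central in
`MonoidAlgebra ℤ K`: `F (infl f hf π) = centralValue (push f z) π` by `ext_infl`, and `push f z` is central:
it commutes with every `push f x`, and `push f` is surjective, because `f` is (`MonoidAlgebra.induction_on`, or: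
it is enough that it commutes with the `single g 1`, `g = f k`).
(b) `F = reducedNorm M`: `F (infl f hf π) = reducedNorm (M.map (push f)) π` by `ext_infl`.
Sums, products, negatives, constants `0`, `1`: pointwise (`Subring.add_mem` etc. and `rfl`).
-/

set_option autoImplicit false
set_option linter.unusedSectionVars false

namespace H29SN

open H25SI

section
variable {G : Type} [Group G] {K : Type} [Group K] (f : K →* G) (hf : Function.Surjective f)

/-- inflation of an irreducible representation -/
def infl (π : IrrRep G) : IrrRep K where
  n := π.n
  ρ := π.ρ.comp f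
  pos := π.pos
  irr W h := π.irr W fun g v hv => by
    obtain ⟨k, rfl⟩ := hf g
    exact h k v hv

/-- the map of group rings -/
noncomputable def push : MonoidAlgebra ℤ K →+* MonoidAlgebra ℤ G := MonoidAlgebra.mapDomainRingHom ℤ f

theorem push_single (k : K) (n : ℤ) :
    push f (MonoidAlgebra.single k n) = MonoidAlgebra.single (f k) n := by
  change MonoidAlgebra.mapDomain f (MonoidAlgebra.single k n) = _
  rw [MonoidAlgebra.mapDomain_single]

theorem ext_infl (π : IrrRep G) (x : MonoidAlgebra ℤ K) :
    ext (infl f hf π).ρ x = ext π.ρ (push f x) := by
  induction x using MonoidAlgebra.induction_linear with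
  | zero =>
    rw [map_zero, map_zero, map_zero]
    rfl
  | add x y hx hy =>
    rw [map_add, map_add, map_add, hx, hy]
    rfl
  | single k n =>
    rw [push_single, ext_single]
    erw [ext_single]
    rfl

include hf in
theorem push_surjective : Function.Surjective (push f) := by
  intro y
  induction y using MonoidAlgebra.induction_linear with
  | zero => exact ⟨0, map_zero _⟩
  | add y z hy hz =>
    obtain ⟨a, rfl⟩ := hy
    obtain ⟨b, rfl⟩ := hz
    exact ⟨a + b, map_add _ _ _⟩
  | single g n =>
    obtain ⟨k, rfl⟩ := hf g
    exact ⟨MonoidAlgebra.single k n, push_single f k n⟩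

theorem ring_infl {F : IrrRep K → ℂ} (hF : F ∈ integralityRing K) :
    (fun π => F (infl f hf π)) ∈ integralityRing G := by
  let Ψ : (IrrRep K → ℂ) →+* (IrrRep G → ℂ) :=
    RingHom.pi fun π => Pi.evalRingHom _ (infl f hf π)
  have h1 : integralityRing K ≤ (integralityRing G).comap Ψ := by
    rw [integralityRing, Subring.closure_le]
    rintro _ (⟨z, hz, rfl⟩ | ⟨m, H, rfl⟩)
    · change Ψ (centralValue z) ∈ integralityRing G
      refine Subring.subset_closure (Or.inl ⟨push f z, ?_, ?_⟩)
      · rw [Subring.mem_center_iff] at hz ⊢
        intro y
        obtain ⟨x, rfl⟩ := push_surjective f hf y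
        rw [← map_mul, ← map_mul, hz x]
      · funext π
        change centralValue z (infl f hf π) = centralValue (push f z) π
        unfold centralValue
        rw [ext_infl]
        rfl
    · change Ψ (reducedNorm H) ∈ integralityRing G
      refine Subring.subset_closure (Or.inr ⟨m, H.map (push f), ?_⟩)
      funext π
      change reducedNorm H (infl f hf π) = reducedNorm (H.map (push f)) π
      unfold reducedNorm
      simp only [ext_infl, Matrix.map_apply]
      rfl
  exact h1 hF

end

end H29SN
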