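import Mathlib

/-!
# Sylow subgroups of a cover with kernel of order prime to `p`
-/

set_option autoImplicit false

namespace H29SN

theorem sylow_of_cover {G K : Type} [Group G] [Finite G] [Group K] [Finite K] (f : K →* G) (p : ℕ)
    [hp1 : Fact p.Prime] (hp : ¬ p ∣ Nat.card f.ker)
    (hS : ∀ P : Sylow p G, ∀ x ∈ P, ∀ y ∈ P, x * y = y * x) :
    ∀ P : Sylow p K, ∀ x ∈ P, ∀ y ∈ P, x * y = y * x := by
  intro P x hx y hy
  have h1 : IsPGroup p ((P : Subgroup K).map f) := P.2.map f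
  obtain ⟨Q, hQ⟩ := h1.exists_le_sylow
  have h2 := hS Q (f x) (hQ ⟨x, hx, rfl⟩) (f y) (hQ ⟨y, hy, rfl⟩)
  have hz : x * y * x⁻¹ * y⁻¹ ∈ (P : Subgroup K) :=
    mul_mem (mul_mem (mul_mem hx hy) (inv_mem hx)) (inv_mem hy)
  have hk : x * y * x⁻¹ * y⁻¹ ∈ f.ker := by
    rw [MonoidHom.mem_ker, map_mul, map_mul, map_mul, map_inv, map_inv, h2, mul_inv_cancel_right,
      mul_inv_cancel]
  by_contra hne
  have hz1 : x * y * x⁻¹ * y⁻¹ ≠ 1 := by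
    intro h
    apply hne
    rwa [mul_inv_eq_one, mul_inv_eq_iff_eq_mul] at h
  obtain ⟨k, hk2⟩ := P.2 ⟨_, hz⟩
  have h3 : (x * y * x⁻¹ * y⁻¹) ^ p ^ k = 1 := congrArg Subtype.val hk2
  have h4 : orderOf (x * y * x⁻¹ * y⁻¹) ∣ p ^ k := orderOf_dvd_of_pow_eq_one h3
  obtain ⟨j, -, hj⟩ := (Nat.dvd_prime_pow hp1.out).1 h4
  have h5 : j ≠ 0 := by
    rintro rfl
    rw [pow_zero, orderOf_eq_one_iff] at hj
    exact hz1 hj
  apply hp
  have h6 : orderOf (⟨_, hk⟩ : f.ker) ∣ Nat.card f.ker := orderOf_dvd_natCard _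
  rw [Subgroup.orderOf_mk, hj] at h6
  exact (dvd_pow_self p h5).trans h6

end H29SN
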