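import Mathlib
import Pool.Agent.H29.SM.Fin
import Pool.Agent.H29.SN.Inf
import Pool.Agent.H29.SN.Cov
import Pool.Agent.H29.SN.Gp
import Pool.Agent.H29.SN.Sy

/-!
# Groups `G = A C` with `A` abelian normal and `C` abelian
-/

set_option autoImplicit false
set_option linter.unusedSectionVars false

namespace H29SN

open H25SI H29SM
open scoped IsMulCommutative

section
variable {G : Type} [Group G] [Fintype G]

/-- the case in which the cover has kernel of order prime to `p` -/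
theorem prime_AC (A C : Subgroup G) [A.Normal] (hA : ∀ a ∈ A, ∀ b ∈ A, a * b = b * a)
    (hC : ∀ a ∈ C, ∀ b ∈ C, a * b = b * a) (hAC : A ⊔ C = ⊤) (hGA : commutator G ≤ A) (p : ℕ)
    [hp : Fact p.Prime] (hpc : ¬ p ∣ Nat.card ↥(A ⊓ C))
    (hS : ∀ P : Sylow p G, ∀ x ∈ P, ∀ y ∈ P, x * y = y * x) (Λ : (G → ℂ) → ℂ)
    (hΛ : ∀ H : Subgroup G, commutator G ≤ H → IntegralAt Λ H) :
    ∃ m : ℤ, ¬ (p : ℤ) ∣ m ∧ m • theta Λ ∈ integralityRing G := by
  classical
  have iC : IsMulCommutative C := ⟨⟨fun a b => Subtype.ext (hC a a.2 b b.2)⟩⟩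
  let φ : C →* MulAut A := (MulAut.conjNormal : G →* MulAut A).comp C.subtype
  have hφ : ∀ (c : C) (a : A), ((φ c a : A) : G) = c * a * (c : G)⁻¹ := fun c a =>
    MulAut.conjNormal_apply _ _
  let K : Type := A ⋊[φ] C
  let iK : Finite K := Finite.of_equiv _ SemidirectProduct.equivProd.symm
  let iK2 : Fintype K := Fintype.ofFinite K
  let f : K →* G := SemidirectProduct.lift A.subtype C.subtype (by
    intro c
    ext a
    change ((φ c a : A) : G) = _
    rw [hφ]
    rfl)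
  have hfi : ∀ k : K, f k = (k.left : G) * (k.right : G) := fun k => rfl
  have hfl : ∀ a : A, f (SemidirectProduct.inl a) = (a : G) := fun a => by
    rw [hfi]
    change (a : G) * ((1 : C) : G) = a
    rw [Subgroup.coe_one, mul_one]
  have hfr : ∀ c : C, f (SemidirectProduct.inr c) = (c : G) := fun c => by
    rw [hfi]
    change ((1 : A) : G) * (c : G) = c
    rw [Subgroup.coe_one, one_mul]
  have hf : Function.Surjective f := by
    rw [← MonoidHom.range_eq_top, eq_top_iff, ← hAC, sup_le_iff]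
    exact ⟨fun a ha => ⟨SemidirectProduct.inl ⟨a, ha⟩, hfl _⟩,
      fun c hc => ⟨SemidirectProduct.inr ⟨c, hc⟩, hfr _⟩⟩
  have hker : ∀ k ∈ f.ker, (k.right : G) ∈ A ∧ (k.left : G) = (k.right : G)⁻¹ := by
    intro k hk
    rw [MonoidHom.mem_ker, hfi, mul_eq_one_iff_eq_inv] at hk
    refine ⟨?_, hk⟩
    rw [← inv_inv (k.right : G), ← hk]
    exact A.inv_mem k.left.2
  have hcard : ¬ p ∣ Nat.card f.ker := by
    intro h
    apply hpc
    let g : f.ker →* ↥(A ⊓ C) :=
      { toFun := fun k => ⟨((k : K).right : G), (hker k.1 k.2).1, (k : K).right.2⟩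
        map_one' := rfl
        map_mul' := fun _ _ => rfl }
    have hg : Function.Injective g := by
      intro k l hkl
      have h1 : ((k : K).right : G) = ((l : K).right : G) :=
        congrArg (fun z : ↥(A ⊓ C) => (z : G)) hkl
      have h2 : ((k : K).left : G) = ((l : K).left : G) := by
        rw [(hker k.1 k.2).2, (hker l.1 l.2).2, h1]
      exact Subtype.ext (SemidirectProduct.ext (Subtype.ext h2) (Subtype.ext h1))
    exact h.trans (Subgroup.card_dvd_of_injective g hg)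
  have hcen : ∀ k ∈ f.ker, ∀ x : K, k * x = x * k := by
    intro k hk x
    obtain ⟨h1, h2⟩ := hker k hk
    apply SemidirectProduct.ext
    · apply Subtype.ext
      rw [SemidirectProduct.mul_left, SemidirectProduct.mul_left, Subgroup.coe_mul,
        Subgroup.coe_mul, hφ, hφ]
      have h3 : (k.right : G) * (x.left : G) * (k.right : G)⁻¹ = x.left := by
        rw [hA _ h1 _ x.left.2, mul_inv_cancel_right]
      have h4 : (x.right : G) * (k.left : G) * (x.right : G)⁻¹ = k.left := by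
        rw [h2, hC _ x.right.2 _ (C.inv_mem k.right.2), mul_inv_cancel_right]
      rw [h3, h4]
      exact hA _ k.left.2 _ x.left.2
    · rw [SemidirectProduct.mul_right, SemidirectProduct.mul_right, mul_comm]
  let κ : K →* C := SemidirectProduct.rightHom
  let j : C →* K := SemidirectProduct.inr
  have hκ : ∀ c, κ (j c) = c := fun c => rfl
  have iA : IsMulCommutative κ.ker := ⟨⟨fun a b => by
    obtain ⟨a, ha⟩ := a
    obtain ⟨b, hb⟩ := b
    have ha' : a.right = 1 := ha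
    have hb' : b.right = 1 := hb
    apply Subtype.ext
    change a * b = b * a
    apply SemidirectProduct.ext
    · rw [SemidirectProduct.mul_left, SemidirectProduct.mul_left, ha', hb', map_one]
      exact Subtype.ext (hA _ a.left.2 _ b.left.2)
    · rw [SemidirectProduct.mul_right, SemidirectProduct.mul_right, mul_comm]⟩⟩
  have i1 : Fintype κ.ker := Fintype.ofFinite _
  have i2 : Fintype C := Fintype.ofFinite _
  have hint : ∀ D : Subgroup C, IntegralAt (cov f Λ) (D.comap κ) := by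
    intro D
    refine integral_cov f hf hcen Λ (D.comap κ) fun _ => hΛ _ (hGA.trans ?_)
    intro a ha
    refine ⟨SemidirectProduct.inl ⟨a, ha⟩, ?_, hfl _⟩
    change κ (SemidirectProduct.inl ⟨a, ha⟩) ∈ D
    have : κ (SemidirectProduct.inl ⟨a, ha⟩) = 1 := rfl
    rw [this]
    exact D.one_mem
  choose b hb using hint
  obtain ⟨q⟩ := exists_PQ p (Nat.card K) Nat.card_pos
  obtain ⟨m, hm, hmem⟩ := exists_mul (C := C) κ j hκ (cov f Λ) b hb p q
    (comm_of_sylow (C := C) κ j hκ p q (sylow_of_cover f p hcard hS))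
  refine ⟨m * Nat.card f.ker, ?_, ?_⟩
  · intro h
    rcases (Nat.prime_iff_prime_int.1 hp.out).dvd_or_dvd h with h1 | h1
    · exact hm h1
    · exact hcard (Int.natCast_dvd_natCast.1 h1)
  · have h1 := ring_infl f hf hmem
    have h2 : (fun π => (m • theta (cov f Λ)) (infl f hf π))
        = (m * (Nat.card f.ker : ℤ)) • theta Λ := by
      funext π
      have h3 : theta (cov f Λ) (infl f hf π) = (Nat.card f.ker : ℂ) * theta Λ π :=
        cov_infl f hf Λ fun g => (π.ρ g).trace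
      rw [Pi.smul_apply, Pi.smul_apply, h3, zsmul_eq_mul, zsmul_eq_mul]
      push_cast
      ring
    rwa [h2] at h1

/-- products of an abelian normal subgroup and an abelian subgroup -/
theorem product_sylow (A C : Subgroup G) [A.Normal] (hA : ∀ a ∈ A, ∀ b ∈ A, a * b = b * a)
    (hC : ∀ a ∈ C, ∀ b ∈ C, a * b = b * a) (hAC : A ⊔ C = ⊤) (Λ : (G → ℂ) → ℂ)
    (hΛ : ∀ H : Subgroup G, commutator G ≤ H → IntegralAt Λ H) :
    ∃ N : ℕ, N ≠ 0 ∧ (∀ p : ℕ, p.Prime → p ∣ N →
        ∃ P : Sylow p G, ∃ x ∈ P, ∃ y ∈ P, x * y ≠ y * x) ∧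
      (N : ℤ) • theta Λ ∈ integralityRing G := by
  classical
  have hQ : ∀ x y : G, x * y * x⁻¹ * y⁻¹ ∈ A := by
    have hm : ∀ g : G, ∃ c ∈ C, ∀ q : G ⧸ A, q = (g : G ⧸ A) ↔ q = (c : G ⧸ A) := by
      intro g
      have hg : g ∈ A ⊔ C := by rw [hAC]; trivial
      obtain ⟨a, ha, c, hc, rfl⟩ := Subgroup.mem_sup_of_normal_left.1 hg
      refine ⟨c, hc, fun q => ?_⟩
      have h1 : ((a : G) : G ⧸ A) = 1 := (QuotientGroup.eq_one_iff _).2 ha
      rw [QuotientGroup.mk_mul, h1, one_mul]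
    intro x y
    obtain ⟨c, hc, hcx⟩ := hm x
    obtain ⟨d, hd, hdy⟩ := hm y
    have h1 : (x : G ⧸ A) = c := (hcx _).1 rfl
    have h2 : (y : G ⧸ A) = d := (hdy _).1 rfl
    rw [← QuotientGroup.eq_one_iff, QuotientGroup.mk_mul, QuotientGroup.mk_mul,
      QuotientGroup.mk_mul, QuotientGroup.mk_inv, QuotientGroup.mk_inv, h1, h2,
      ← QuotientGroup.mk_inv, ← QuotientGroup.mk_inv, ← QuotientGroup.mk_mul,
      ← QuotientGroup.mk_mul, ← QuotientGroup.mk_mul, hC c hc d hd, mul_inv_cancel_right,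
      mul_inv_cancel, QuotientGroup.mk_one]
  have hGA : commutator G ≤ A := by
    rw [commutator_def, Subgroup.commutator_le]
    intro x _ y _
    exact hQ x y
  obtain ⟨z, hz, hzv⟩ := metabelian A hA hQ Λ fun H hH => hΛ H (hGA.trans hH)
  have h1 : (Nat.card (commutator G) : ℤ) • theta Λ ∈ integralityRing G := by
    have h2 : (Nat.card (commutator G) : ℤ) • theta Λ = centralValue z := by
      funext π
      rw [hzv, Pi.smul_apply, zsmul_eq_mul, Int.cast_natCast]
    rw [h2]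
    exact Subring.subset_closure (Or.inl ⟨z, hz, rfl⟩)
  refine sub_mem_of_int _ _ (fun p => ∃ P : Sylow p G, ∃ x ∈ P, ∃ y ∈ P, x * y ≠ y * x)
    ⟨_, ?_, h1⟩ fun p hp hQp => ?_
  · have : 0 < Nat.card (commutator G) := Nat.card_pos
    exact_mod_cast this.ne'
  · have : Fact p.Prime := ⟨hp⟩
    have hS : ∀ P : Sylow p G, ∀ x ∈ P, ∀ y ∈ P, x * y = y * x := by
      intro P x hx y hy
      by_contra h
      exact hQp ⟨P, x, hx, y, hy, h⟩
    obtain ⟨A', C', hn, h3, h4, h5, h6, h7⟩ := exists_AC A C hA hC hAC p hS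
    exact prime_AC A' C' h4 h5 h6 h3 p h7 hS Λ hΛ

theorem metabelian_product (A : Subgroup G) [A.Normal] (hA : ∀ a ∈ A, ∀ b ∈ A, a * b = b * a)
    (hQ : ∀ x y : G, x * y * x⁻¹ * y⁻¹ ∈ A)
    (h : (∃ C : Subgroup G, (∀ a ∈ C, ∀ b ∈ C, a * b = b * a) ∧ A ⊔ C = ⊤) ∨
      ∀ p : ℕ, p.Prime → ∀ P : Sylow p G, ∀ x ∈ P, ∀ y ∈ P, x * y = y * x)
    (Λ : (G → ℂ) → ℂ) (hΛ : ∀ H : Subgroup G, commutator G ≤ H → IntegralAt Λ H) :
    ∃ N : ℕ, N ≠ 0 ∧ (∀ p : ℕ, p.Prime → p ∣ N →
        ∃ P : Sylow p G, ∃ x ∈ P, ∃ y ∈ P, x * y ≠ y * x) ∧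
      (N : ℤ) • theta Λ ∈ integralityRing G := by
  rcases h with ⟨C, hC, hAC⟩ | hS
  · exact product_sylow A C hA hC hAC Λ hΛ
  · exact metabelian_sylow A hA hQ (Or.inr hS) Λ hΛ

end

end H29SN
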